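import Mathlib

set_option autoImplicit false

namespace Pool.Agent.Results.MP_037fd6_co.OddGirthZFC

open Cardinal Set

/-- The chromatic number of a possibly infinite graph: the least cardinality of a set of
colours which admits a proper vertex colouring. -/
noncomputable def cardChromatic {V : Type} (G : SimpleGraph V) : Cardinal.{0} :=
  sInf {κ : Cardinal.{0} | ∃ C : Type, #C = κ ∧ Nonempty (G.Coloring C)}

/-! ### The abstract blow-up -/

/-- Well-founded memory trees over a set `X` of types. -/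
inductive Node (X : Type) : Type
  | leaf : Node X
  | mk : (ℕ → X → Node X) → X → Node X

variable {X : Type}

theorem Node.not_self (v : Node X) :
    ∀ (q : ℕ → X → Node X) (x : X) (n : ℕ) (x' : X), v = Node.mk q x → q n x' ≠ v := by
  induction v with
  | leaf => intro q x n x' h; cases h
  | mk p y ih =>
    intro q x n x' h h'
    cases h
    exact ih n x' p y n x' h' rfl

theorem Node.mk_ne (q : ℕ → X → Node X) (x : X) (n : ℕ) (x' : X) :
    q n x' ≠ Node.mk q x :=
  Node.not_self _ q x n x' rfl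

/-- `Down N v w`: the node `w` is a lower neighbour of `v`. -/
def Down (N : X → ℕ → X → Prop) (v w : Node X) : Prop :=
  ∃ (p : ℕ → X → Node X) (y : X) (q : ℕ → X → Node X) (x : X) (n : ℕ),
    v = Node.mk p y ∧ w = Node.mk q x ∧ N y n x ∧ p n x = w ∧ ∀ i, i < n → q i = p i

/-- type of a node -/
def tp (x₀ : X) : Node X → X
  | Node.leaf => x₀
  | Node.mk _ y => y

theorem Down.tp_rel {N : X → ℕ → X → Prop} {D : X → X → Prop}
    (h1 : ∀ y n x, N y n x → D x y) (x₀ : X) {v w : Node X} (h : Down N v w) :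
    D (tp x₀ w) (tp x₀ v) := by
  obtain ⟨p, y, q, x, n, rfl, rfl, hN, -, -⟩ := h
  exact h1 _ _ _ hN

theorem finite_common {N : X → ℕ → X → Prop}
    (h2 : ∀ y n, {x | N y n x}.Finite)
    (h3 : ∀ y y', y ≠ y' → {z : ℕ × X | N y z.1 z.2 ∧ N y' z.1 z.2}.Finite)
    (a b : Node X) (hab : a ≠ b) : {w | Down N a w ∧ Down N b w}.Finite := by
  cases a with
  | leaf =>
    convert Set.finite_empty
    ext w
    simp only [mem_ofPred_eq, mem_empty_iff_false, iff_false]
    rintro ⟨⟨p, y, q, x, n, h, -⟩, -⟩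
    cases h
  | mk p y =>
  cases b with
  | leaf =>
    convert Set.finite_empty
    ext w
    simp only [mem_ofPred_eq, mem_empty_iff_false, iff_false]
    rintro ⟨-, ⟨p, y, q, x, n, h, -⟩⟩
    cases h
  | mk p' y' =>
  by_cases hp : p = p'
  · subst hp
    have hy : y ≠ y' := fun h => hab (by rw [h])
    refine ((h3 y y' hy).image (fun z => p z.1 z.2)).subset ?_
    rintro w ⟨⟨p1, y1, q, x, n, h, hw, hN, hpn, hq⟩, ⟨p2, y2, q2, x2, n2, h2', hw2, hN2, hpn2, hq2⟩⟩
    cases h
    cases h2'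
    rw [hw] at hw2
    cases hw2
    have hnn : n = n2 := by
      rcases lt_trichotomy n n2 with hlt | heq | hgt
      · exfalso
        have := hq2 n hlt
        have h4 : q n x = Node.mk q x := by rw [this, hpn, hw]
        exact Node.mk_ne q x n x h4
      · exact heq
      · exfalso
        have := hq n2 hgt
        have h4 : q n2 x = Node.mk q x := by rw [this, hpn2, hw]
        exact Node.mk_ne q x n2 x h4
    subst hnn
    exact ⟨(n, x), ⟨hN, hN2⟩, hpn⟩
  · have : ∃ i, p i ≠ p' i := by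
      by_contra hcon
      push Not at hcon
      exact hp (funext hcon)
    obtain ⟨i, hi⟩ := this
    have hfin : (⋃ n ∈ Set.Iic i, (fun x => p n x) '' {x | N y n x}).Finite :=
      (Set.finite_Iic i).biUnion (fun n _ => (h2 y n).image _)
    have hfin' : (⋃ n ∈ Set.Iic i, (fun x => p' n x) '' {x | N y' n x}).Finite :=
      (Set.finite_Iic i).biUnion (fun n _ => (h2 y' n).image _)
    refine (hfin.union hfin').subset ?_
    rintro w ⟨⟨p1, y1, q, x, n, h, hw, hN, hpn, hq⟩, ⟨p2, y2, q2, x2, n2, h2', hw2, hN2, hpn2, hq2⟩⟩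
    cases h
    cases h2'
    rw [hw] at hw2
    cases hw2
    by_cases hn : n ≤ i
    · left
      simp only [mem_iUnion, mem_image, mem_ofPred_eq, mem_Iic]
      exact ⟨n, hn, x, hN, hpn⟩
    · by_cases hn2 : n2 ≤ i
      · right
        simp only [mem_iUnion, mem_image, mem_ofPred_eq, mem_Iic]
        exact ⟨n2, hn2, x, hN2, hpn2⟩
      · exfalso
        push Not at hn hn2
        exact hi ((hq i hn).symm.trans (hq2 i hn2))

open Classical in
/-- One step of the diagonal construction. -/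
noncomputable def step (c : Node X → ℕ) (κ : ℕ → ℕ) (n : ℕ) (prev : ∀ m, m < n → X → Node X) :
    X → Node X := fun x =>
  if h : ∃ q : ℕ → X → Node X, (∀ i (hi : i < n), q i = prev i hi) ∧ c (Node.mk q x) = κ n
  then Node.mk (Classical.choose h) x else Node.leaf

/-- The diagonal sequence. -/
noncomputable def diag (c : Node X → ℕ) (κ : ℕ → ℕ) (n : ℕ) : X → Node X :=
  WellFounded.fix (C := fun _ => X → Node X) Nat.lt_wfRel.wf (step c κ) n

theorem diag_eq (c : Node X → ℕ) (κ : ℕ → ℕ) (n : ℕ) :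
    diag c κ n = step c κ n (fun m _ => diag c κ m) := by
  unfold diag
  rw [WellFounded.fix_eq]
  rfl

theorem no_coloring {N : X → ℕ → X → Prop} {D : X → X → Prop} (κ : ℕ → ℕ)
    (h4 : ∀ x y, D x y → ∀ k, ∃ n, κ n = k ∧ N y n x)
    (h5 : ∀ c : X → ℕ, ∃ x y, D x y ∧ c x = c y)
    (c : Node X → ℕ) : ∃ v w, Down N v w ∧ c v = c w := by
  obtain ⟨x, y, hxy, hc⟩ := h5 (fun x => c (Node.mk (diag c κ) x))
  obtain ⟨n, hn, hN⟩ := h4 x y hxy (c (Node.mk (diag c κ) y))
  have hex : ∃ q : ℕ → X → Node X, (∀ i (hi : i < n), q i = (fun m (_ : m < n) => diag c κ m) i hi) ∧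
      c (Node.mk q x) = κ n := ⟨diag c κ, fun i _ => rfl, by rw [hn]; exact hc⟩
  have hval : diag c κ n x = Node.mk (Classical.choose hex) x := by
    rw [diag_eq]
    unfold step
    rw [dif_pos hex]
  have hspec := Classical.choose_spec hex
  refine ⟨Node.mk (diag c κ) y, diag c κ n x, ?_, ?_⟩
  · exact ⟨diag c κ, y, Classical.choose hex, x, n, rfl, hval, hN, rfl, fun i hi => hspec.1 i hi⟩
  · rw [hval, hspec.2, hn]

/-- The blow-up graph. -/
def blow (N : X → ℕ → X → Prop) {D : X → X → Prop} (x₀ : X)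
    (h1 : ∀ y n x, N y n x → D x y) (hD : ∀ x, ¬ D x x) : SimpleGraph (Node X) where
  Adj v w := Down N v w ∨ Down N w v
  symm := ⟨fun _ _ h => h.symm⟩
  loopless := ⟨fun v h => by
    rcases h with h | h
    · exact hD _ (h.tp_rel h1 x₀)
    · exact hD _ (h.tp_rel h1 x₀)⟩

theorem three_aux (a b c a' b' c' : Prop)
    (h1 : ¬ (a ∧ b)) (h2 : ¬ (a ∧ c)) (h3 : ¬ (b ∧ c))
    (h1' : ¬ (a' ∧ b')) (h2' : ¬ (a' ∧ c')) (h3' : ¬ (b' ∧ c')) :
    (¬ a ∧ ¬ a') ∨ (¬ b ∧ ¬ b') ∨ (¬ c ∧ ¬ c') := by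
  tauto

theorem comb_aux (P : ℕ → ℕ → Prop)
    (F1 : ∀ i i', i ≠ i' → ∀ᶠ j in Filter.atTop, ¬ (P i j ∧ P i' j))
    (F2 : ∀ j j', j ≠ j' → ∀ᶠ i in Filter.atTop, P i j ∨ P i j') :
    ∃ i i' j j', ¬ P i j ∧ P i' j ∧ ¬ P i' j' ∧ ¬ P i j' := by
  obtain ⟨J, hJ⟩ := Filter.eventually_atTop.1
    (((F1 0 1 (by decide)).and (F1 0 2 (by decide))).and (F1 1 2 (by decide)))
  obtain ⟨I, hI⟩ := Filter.eventually_atTop.1 (F2 J (J+1) (by omega))
  obtain ⟨j', ⟨⟨h01, h02⟩, h12⟩, h34⟩ := ((((F1 0 1 (by decide)).and (F1 0 2 (by decide))).and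
    (F1 1 2 (by decide))).and (F1 I (I+1) (by omega))).exists
  have hi' : ∃ i', I ≤ i' ∧ ¬ P i' j' := by
    by_cases h : P I j'
    · exact ⟨I+1, by omega, fun h' => h34 ⟨h, h'⟩⟩
    · exact ⟨I, le_rfl, h⟩
  obtain ⟨i', hi'1, hi'2⟩ := hi'
  have hj : ∃ j, J ≤ j ∧ P i' j := by
    rcases hI i' hi'1 with h | h
    · exact ⟨J, le_rfl, h⟩
    · exact ⟨J+1, by omega, h⟩
  obtain ⟨j, hj1, hj2⟩ := hj
  obtain ⟨⟨g01, g02⟩, g12⟩ := hJ j hj1
  rcases three_aux _ _ _ _ _ _ g01 g02 g12 h01 h02 h12 with h | h | h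
  · exact ⟨0, i', j, j', h.1, hj2, hi'2, h.2⟩
  · exact ⟨1, i', j, j', h.1, hj2, hi'2, h.2⟩
  · exact ⟨2, i', j, j', h.1, hj2, hi'2, h.2⟩

theorem blow_no_Kww {N : X → ℕ → X → Prop} {D : X → X → Prop} (x₀ : X)
    (h1 : ∀ y n x, N y n x → D x y) (hD : ∀ x, ¬ D x x)
    (h2 : ∀ y n, {x | N y n x}.Finite)
    (h3 : ∀ y y', y ≠ y' → {z : ℕ × X | N y z.1 z.2 ∧ N y' z.1 z.2}.Finite)
    (h6 : ∀ x y z w, D x y → D y z → D z w → ¬ D x w) :
    ¬ (completeBipartiteGraph ℕ ℕ).IsContained (blow N x₀ h1 hD) := by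
  rintro ⟨f⟩
  let A : ℕ → Node X := fun i => f (Sum.inl i)
  let B : ℕ → Node X := fun j => f (Sum.inr j)
  have hinj : Function.Injective f := f.injective
  have hAinj : Function.Injective A := fun i i' h => Sum.inl_injective (hinj h)
  have hBinj : Function.Injective B := fun i i' h => Sum.inr_injective (hinj h)
  have hadj : ∀ i j, Down N (A i) (B j) ∨ Down N (B j) (A i) := by
    intro i j
    have : (completeBipartiteGraph ℕ ℕ).Adj (Sum.inl i) (Sum.inr j) := by simp
    exact f.toHom.map_adj this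
  have F1 : ∀ i i', i ≠ i' → ∀ᶠ j in Filter.atTop, ¬ (Down N (A i) (B j) ∧ Down N (A i') (B j)) := by
    intro i i' hii
    have hfin := finite_common h2 h3 (A i) (A i') (fun h => hii (hAinj h))
    have hfin' : {j | Down N (A i) (B j) ∧ Down N (A i') (B j)}.Finite :=
      hfin.preimage hBinj.injOn
    rw [← Nat.cofinite_eq_atTop]
    exact hfin'.eventually_cofinite_notMem
  have F2 : ∀ j j', j ≠ j' → ∀ᶠ i in Filter.atTop, Down N (A i) (B j) ∨ Down N (A i) (B j') := by
    intro j j' hjj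
    have hfin := finite_common h2 h3 (B j) (B j') (fun h => hjj (hBinj h))
    have hfin' : {i | Down N (B j) (A i) ∧ Down N (B j') (A i)}.Finite :=
      hfin.preimage hAinj.injOn
    rw [← Nat.cofinite_eq_atTop]
    filter_upwards [hfin'.eventually_cofinite_notMem] with i hi
    have hi' : ¬ (Down N (B j) (A i) ∧ Down N (B j') (A i)) := hi
    rcases hadj i j with h | h
    · exact Or.inl h
    · rcases hadj i j' with h' | h'
      · exact Or.inr h'
      · exact absurd ⟨h, h'⟩ hi'
  obtain ⟨i, i', j, j', e1, e2, e3, e4⟩ := comb_aux (fun i j => Down N (A i) (B j)) F1 F2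
  have e1' := (hadj i j).resolve_left e1
  have e3' := (hadj i' j').resolve_left e3
  have e4' := (hadj i j').resolve_left e4
  exact h6 _ _ _ _ (e1'.tp_rel h1 x₀) (e2.tp_rel h1 x₀) (e3'.tp_rel h1 x₀) (e4'.tp_rel h1 x₀)

/-! ### Slots -/

/-- code of the first `m` values of a sequence of bits -/
def pre (r : ℕ → Bool) (m : ℕ) : ℕ := Encodable.encode (List.ofFn (fun i : Fin m => r i))

/-- the colour scheduled at stage `n` -/
def sched (n : ℕ) : ℕ :=
  match (Encodable.decode n : Option (List Bool)) with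
  | some l => (Nat.unpair l.length).1
  | none => 0

theorem sched_pre (r : ℕ → Bool) (m : ℕ) : sched (pre r m) = (Nat.unpair m).1 := by
  unfold sched pre
  rw [Encodable.encodek]
  simp

theorem pre_inj {r r' : ℕ → Bool} {m m' : ℕ} (h : pre r m = pre r' m') :
    m = m' ∧ ∀ i, i < m → r i = r' i := by
  unfold pre at h
  have h1 := Encodable.encode_injective h
  have h2 : m = m' := by simpa using congrArg List.length h1
  subst h2
  refine ⟨rfl, fun i hi => ?_⟩
  have h3 := List.ofFn_injective h1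
  exact congrFun h3 ⟨i, hi⟩

/-- slot relation -/
def Slot (D : X → X → Prop) (ρ : X → ℕ → Bool) (e : X → X → ℕ) (y : X) (n : ℕ) (x : X) : Prop :=
  D x y ∧ ∃ k, n = pre (ρ y) (Nat.pair k (e y x))

theorem slot_fun {D : X → X → Prop} {ρ : X → ℕ → Bool} {e : X → X → ℕ}
    (he : ∀ y x x', D x y → D x' y → e y x = e y x' → x = x') {y : X} {n : ℕ} {x x' : X}
    (h : Slot D ρ e y n x) (h' : Slot D ρ e y n x') : x = x' := by
  obtain ⟨hD, k, hk⟩ := h
  obtain ⟨hD', k', hk'⟩ := h'
  rw [hk] at hk'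
  have h1 := (pre_inj hk').1
  have h2 := (Nat.pair_eq_pair.1 h1).2
  exact he y x x' hD hD' h2

theorem slot_fin {D : X → X → Prop} {ρ : X → ℕ → Bool} {e : X → X → ℕ}
    (he : ∀ y x x', D x y → D x' y → e y x = e y x' → x = x') (y : X) (n : ℕ) :
    {x | Slot D ρ e y n x}.Finite := by
  apply Set.Subsingleton.finite
  intro x hx x' hx'
  exact slot_fun he hx hx'

theorem slot_ad {D : X → X → Prop} {ρ : X → ℕ → Bool} {e : X → X → ℕ}
    (he : ∀ y x x', D x y → D x' y → e y x = e y x' → x = x')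
    (hρ : Function.Injective ρ) (y y' : X) (hy : y ≠ y') :
    {z : ℕ × X | Slot D ρ e y z.1 z.2 ∧ Slot D ρ e y' z.1 z.2}.Finite := by
  have hne : ρ y ≠ ρ y' := fun h => hy (hρ h)
  have : ∃ i, ρ y i ≠ ρ y' i := by
    by_contra hcon
    push Not at hcon
    exact hne (funext hcon)
  obtain ⟨i, hi⟩ := this
  have hfin : (⋃ m ∈ Set.Iic i, (fun x => (pre (ρ y) m, x)) ''
      {x | Slot D ρ e y (pre (ρ y) m) x}).Finite :=
    (Set.finite_Iic i).biUnion (fun n _ => (slot_fin he y _).image _)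
  refine hfin.subset ?_
  rintro ⟨n, x⟩ ⟨h, h'⟩
  have h0 : Slot D ρ e y n x := h
  obtain ⟨hD, k, hk⟩ := h
  obtain ⟨hD', k', hk'⟩ := h'
  simp only at hk hk'
  simp only [mem_iUnion, mem_image, mem_ofPred_eq, mem_Iic]
  refine ⟨Nat.pair k (e y x), ?_, x, ?_, ?_⟩
  · by_contra hlt
    push Not at hlt
    rw [hk] at hk'
    exact hi ((pre_inj hk').2 i hlt)
  · rw [← hk]; exact h0
  · rw [← hk]

theorem slot_catch {D : X → X → Prop} {ρ : X → ℕ → Bool} {e : X → X → ℕ} (x y : X)
    (h : D x y) (k : ℕ) : ∃ n, sched n = k ∧ Slot D ρ e y n x :=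
  ⟨pre (ρ y) (Nat.pair k (e y x)), by rw [sched_pre, Nat.unpair_pair], h, k, rfl⟩

/-! ### The countable-colour shift digraph on increasing tuples -/

section Tuples

variable {Ω : Type} [LinearOrder Ω]

set_option linter.unusedSectionVars false

/-- `i`-th entry of a list, with a default value -/
def nth (d : Ω) (s : List Ω) (i : ℕ) : Ω := s.getD i d

theorem nth_append_left (d : Ω) (s t : List Ω) (i : ℕ) (h : i < s.length) :
    nth d (s ++ t) i = nth d s i := by
  unfold nth
  simp [List.getD_eq_getElem?_getD, List.getElem?_append_left h]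

theorem nth_append_last (d : Ω) (s : List Ω) (a : Ω) :
    nth d (s ++ [a]) s.length = a := by
  unfold nth
  simp [List.getD_eq_getElem?_getD]

/-- strictly increasing lists -/
def Inc (d : Ω) (s : List Ω) : Prop := ∀ i j, i < j → j < s.length → nth d s i < nth d s j

/-- the digraph: `x → y` -/
def Arc (d : Ω) (n R : ℕ) (x y : List Ω) : Prop :=
  x.length = R ∧ y.length = R ∧ Inc d x ∧ Inc d y ∧
    (∀ i, i + n < R → nth d x (i + n) < nth d y i) ∧
    (∀ i, i + n + 1 < R → nth d y i < nth d x (i + n + 1))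

/-- `Good c k m s`: the tuple `s` can be extended `m` times, each time in unboundedly many ways,
so that the result has colour `k`. -/
def Good (c : List Ω → ℕ) (k : ℕ) : ℕ → List Ω → Prop
  | 0, s => c s = k
  | m + 1, s => ∀ β : Ω, ∃ α, β < α ∧ Good c k m (s ++ [α])

theorem exists_good (hΩ : ∀ f : ℕ → Ω, ∃ α, ∀ k, f k < α) (c : List Ω → ℕ) (m : ℕ) :
    ∀ s, ∃ k, Good c k m s := by
  induction m with
  | zero => intro s; exact ⟨c s, rfl⟩
  | succ m ih =>
    intro s
    by_contra hcon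
    push Not at hcon
    have : ∀ k, ∃ β : Ω, ∀ α, β < α → ¬ Good c k m (s ++ [α]) := by
      intro k
      have := hcon k
      simp only [Good] at this
      push Not at this
      exact this
    choose β hβ using this
    obtain ⟨α, hα⟩ := hΩ β
    obtain ⟨k, hk⟩ := ih (s ++ [α])
    exact hβ k α (hα k) hk

theorem Inc.snoc {d : Ω} {s : List Ω} (hs : Inc d s) {a : Ω} (ha : ∀ i, i < s.length → nth d s i < a) :
    Inc d (s ++ [a]) := by
  intro i j hij hj
  simp only [List.length_append, List.length_cons, List.length_nil, zero_add] at hj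
  rcases Nat.lt_succ_iff_lt_or_eq.1 hj with h | h
  · rw [nth_append_left d s _ i (hij.trans h), nth_append_left d s _ j h]
    exact hs i j hij h
  · subst h
    rw [nth_append_left d s _ i hij, nth_append_last]
    exact ha i hij

theorem good_step (hΩ : ∀ f : ℕ → Ω, ∃ α, ∀ k, f k < α) {c : List Ω → ℕ} {k m : ℕ} {d : Ω}
    {s : List Ω} (hs : Inc d s) (hg : Good c k (m + 1) s) (γ : ℕ → Ω) :
    ∃ a, (∀ i, γ i < a) ∧ (∀ i, nth d s i < a) ∧ Inc d (s ++ [a]) ∧ Good c k m (s ++ [a]) := by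
  obtain ⟨β1, hβ1⟩ := hΩ γ
  obtain ⟨β2, hβ2⟩ := hΩ (nth d s)
  obtain ⟨a, ha, hga⟩ := hg (max β1 β2)
  have h1 : ∀ i, γ i < a := fun i => (hβ1 i).trans ((le_max_left _ _).trans_lt ha)
  have h2 : ∀ i, nth d s i < a := fun i => (hβ2 i).trans ((le_max_right _ _).trans_lt ha)
  exact ⟨a, h1, h2, hs.snoc (fun i _ => h2 i), hga⟩

theorem good_extend (hΩ : ∀ f : ℕ → Ω, ∃ α, ∀ k, f k < α) {c : List Ω → ℕ} {k : ℕ} {d : Ω}
    (m' : ℕ) (γ : ℕ → Ω) (m : ℕ) :
    ∀ {s : List Ω}, Inc d s → Good c k (m + m') s →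
    ∃ s', s'.length = s.length + m ∧ (∀ i, i < s.length → nth d s' i = nth d s i) ∧
      (∀ i, s.length ≤ i → i < s'.length → ∀ j, γ j < nth d s' i) ∧ Inc d s' ∧ Good c k m' s' := by
  induction m with
  | zero =>
    intro s hs hg
    rw [zero_add] at hg
    exact ⟨s, by simp, fun i _ => rfl, fun i h1 h2 => absurd h1 (by omega), hs, hg⟩
  | succ m ih =>
    intro s hs hg
    have hg' : Good c k ((m + m') + 1) s := by
      have : m + 1 + m' = (m + m') + 1 := by omega
      rwa [this] at hg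
    obtain ⟨a, ha1, ha2, ha3, ha4⟩ := good_step hΩ hs hg' γ
    obtain ⟨s', h1, h2, h3, h4, h5⟩ := ih ha3 ha4
    have hlen : (s ++ [a]).length = s.length + 1 := by simp
    refine ⟨s', by omega, fun i hi => ?_, fun i hi1 hi2 j => ?_, h4, h5⟩
    · rw [h2 i (by omega), nth_append_left d s _ i hi]
    · rcases Nat.eq_or_lt_of_le hi1 with h | h
      · rw [h2 i (by omega), ← h, nth_append_last]
        exact ha1 j
      · exact h3 i (by omega) hi2 j

theorem exists_arc (hΩ : ∀ f : ℕ → Ω, ∃ α, ∀ k, f k < α) (d : Ω) (n R : ℕ) (hR : n + 1 ≤ R)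
    (c : List Ω → ℕ) : ∃ x y, Arc d n R x y ∧ c x = c y := by
  obtain ⟨k, hk⟩ := exists_good hΩ c R ([] : List Ω)
  have hinc0 : Inc d ([] : List Ω) := by
    intro i j _ hj
    simp at hj
  have key : ∀ j, j + n + 1 ≤ R → ∃ s t : List Ω, s.length = j + n + 1 ∧ t.length = j ∧
      Inc d s ∧ Inc d t ∧ Good c k (R - (j + n + 1)) s ∧ Good c k (R - j) t ∧
      ∀ i, i < j → nth d s (i + n) < nth d t i ∧ nth d t i < nth d s (i + n + 1) := by
    intro j
    induction j with
    | zero =>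
      intro hj
      have hk' : Good c k ((n + 1) + (R - (n + 1))) ([] : List Ω) := by
        have : (n + 1) + (R - (n + 1)) = R := by omega
        rwa [this]
      obtain ⟨s, h1, h2, h3, h4, h5⟩ := good_extend hΩ (R - (n+1)) (fun _ => d) (n+1) hinc0 hk'
      refine ⟨s, [], by simpa using h1, rfl, h4, hinc0, by simpa using h5, by simpa using hk, ?_⟩
      intro i hi
      omega
    | succ j ih =>
      intro hj
      obtain ⟨s, t, hs, ht, hsi, hti, hsg, htg, hst⟩ := ih (by omega)
      have htg' : Good c k ((R - (j + 1)) + 1) t := by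
        have : (R - (j + 1)) + 1 = R - j := by omega
        rwa [this]
      obtain ⟨b, hb1, hb2, hb3, hb4⟩ := good_step hΩ hti htg' (nth d s)
      have hsg' : Good c k ((R - (j + 1 + n + 1)) + 1) s := by
        have : (R - (j + 1 + n + 1)) + 1 = R - (j + n + 1) := by omega
        rwa [this]
      obtain ⟨a, ha1, ha2, ha3, ha4⟩ := good_step hΩ hsi hsg' (fun _ => b)
      refine ⟨s ++ [a], t ++ [b], by simp; omega, by simp; omega, ha3, hb3, ha4, hb4, ?_⟩
      intro i hi
      rcases Nat.lt_succ_iff_lt_or_eq.1 hi with h | h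
      · rw [nth_append_left d s _ (i + n) (by omega), nth_append_left d t _ i (by omega),
          nth_append_left d s _ (i + n + 1) (by omega)]
        exact hst i h
      · subst h
        have e1 : nth d (t ++ [b]) i = b := by
          have := nth_append_last d t b
          rwa [ht] at this
        have e2 : nth d (s ++ [a]) (i + n + 1) = a := by
          have := nth_append_last d s a
          rwa [hs] at this
        rw [e1, e2, nth_append_left d s _ (i + n) (by omega)]
        exact ⟨hb1 _, ha1 0⟩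
  obtain ⟨s, t, hs, ht, hsi, hti, hsg, htg, hst⟩ := key (R - (n + 1)) (by omega)
  have htg' : Good c k ((n + 1) + 0) t := by
    have : (n + 1) + 0 = R - (R - (n + 1)) := by omega
    rwa [this]
  obtain ⟨t', h1, h2, h3, h4, h5⟩ := good_extend hΩ 0 (nth d s) (n+1) hti htg'
  have hsg' : Good c k 0 s := by
    have : R - (R - (n + 1) + n + 1) = 0 := by omega
    rwa [this] at hsg
  refine ⟨s, t', ⟨by omega, by omega, hsi, h4, ?_, ?_⟩, ?_⟩
  · intro i hi
    by_cases h : i < R - (n + 1)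
    · rw [h2 i (by omega)]
      exact (hst i h).1
    · exact h3 i (by omega) (by omega) _
  · intro i hi
    rw [h2 i (by omega)]
    exact (hst i (by omega)).2
  · have e1 : c s = k := hsg'
    have e2 : c t' = k := h5
    rw [e1, e2]

theorem Inc.le {d : Ω} {s : List Ω} (hs : Inc d s) {i j : ℕ} (hij : i ≤ j) (hj : j < s.length) :
    nth d s i ≤ nth d s j := by
  rcases Nat.eq_or_lt_of_le hij with h | h
  · rw [h]
  · exact (hs i j h hj).le

theorem arc_no_four {d : Ω} {n R : ℕ} (hn : 1 ≤ n) (hR : 2 * n + 1 ≤ R) (x y z w : List Ω)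
    (h1 : Arc d n R x y) (h2 : Arc d n R y z) (h3 : Arc d n R z w) : ¬ Arc d n R x w := by
  intro h4
  obtain ⟨hx, hy, hxi, hyi, a1, -⟩ := h1
  obtain ⟨-, hz, -, hzi, a2, -⟩ := h2
  obtain ⟨-, hw, -, hwi, a3, -⟩ := h3
  obtain ⟨-, -, -, -, -, a4⟩ := h4
  have e1 := a1 n (by omega)
  have e2 := a2 0 (by omega)
  have e3 := a3 0 (by omega)
  have e4 := a4 0 (by omega)
  have e5 : nth d z 0 ≤ nth d z (0 + n) := hzi.le (by omega) (by omega)
  have e6 : nth d x (0 + n + 1) ≤ nth d x (n + n) := hxi.le (by omega) (by omega)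
  rw [zero_add] at e2
  exact absurd (((e1.trans e2).trans_le e5).trans (e3.trans (e4.trans_le e6))) (lt_irrefl _)

theorem arc_irrefl {d : Ω} {n R : ℕ} (hR : n + 1 ≤ R) (x : List Ω) : ¬ Arc d n R x x := by
  rintro ⟨hx, -, hxi, -, a1, -⟩
  have e1 := a1 0 (by omega)
  have e2 : nth d x 0 ≤ nth d x (0 + n) := hxi.le (by omega) (by omega)
  exact absurd (e1.trans_le e2) (lt_irrefl _)

theorem arc_no_odd_closed {d : Ω} {n N : ℕ} (hN : N = (n + 1) * (2 * n + 1))
    (g : ℕ → List Ω) (L : ℕ) (hL : Odd L) (hLn : L < 2 * n)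
    (hg : ∀ j, j < L → Arc d n (2 * N + 1) (g j) (g (j + 1)) ∨
      Arc d n (2 * N + 1) (g (j + 1)) (g j)) (hclose : g L = g 0) : False := by
  have key : ∀ j, j ≤ L → ∃ f b s t : ℕ, f + b = j ∧ s + n * f = N + (n * b + b) ∧
      t + (n * f + f) = N + n * b ∧ nth d (g 0) N ≤ nth d (g j) s ∧
      nth d (g j) t ≤ nth d (g 0) N := by
    intro j
    induction j with
    | zero =>
      intro _
      exact ⟨0, 0, N, N, rfl, by simp, by simp, le_rfl, le_rfl⟩
    | succ j ih =>
      intro hj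
      obtain ⟨f, b, s, t, hfb, hs, ht, h1, h2⟩ := ih (by omega)
      have hNe : N = n * (2 * n) + n + (2 * n + 1) := by rw [hN]; ring
      have hnf : n * f ≤ n * (2 * n) := Nat.mul_le_mul_left _ (by omega)
      have hnb : n * b ≤ n * (2 * n) := Nat.mul_le_mul_left _ (by omega)
      have hf1 : n * (f + 1) = n * f + n := by ring
      have hb1 : n * (b + 1) = n * b + n := by ring
      rcases hg j (by omega) with h | h
      · obtain ⟨hx, hy, hxi, hyi, a1, a2⟩ := h
        obtain ⟨s', rfl⟩ : ∃ s', s = s' + n := ⟨s - n, by omega⟩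
        obtain ⟨t', rfl⟩ : ∃ t', t = t' + n + 1 := ⟨t - (n + 1), by omega⟩
        refine ⟨f + 1, b, s', t', by omega, by omega, by omega, ?_, ?_⟩
        · exact h1.trans (a1 s' (by omega)).le
        · exact (a2 t' (by omega)).le.trans h2
      · obtain ⟨hx, hy, hxi, hyi, a1, a2⟩ := h
        refine ⟨f, b + 1, s + n + 1, t + n, by omega, by omega, by omega, ?_, ?_⟩
        · exact h1.trans (a2 s (by omega)).le
        · exact (a1 t (by omega)).le.trans h2
  have hLpos : 0 < L := by
    rcases hL with ⟨r, hr⟩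
    omega
  have h0 : (g 0).length = 2 * N + 1 ∧ Inc d (g 0) := by
    rcases hg 0 hLpos with h | h
    · exact ⟨h.1, h.2.2.1⟩
    · exact ⟨h.2.1, h.2.2.2.1⟩
  obtain ⟨f, b, s, t, hfb, hs, ht, h1, h2⟩ := key L le_rfl
  rw [hclose] at h1 h2
  have hNe : N = n * (2 * n) + n + (2 * n + 1) := by rw [hN]; ring
  have hne : f ≠ b := by
    rintro rfl
    rcases hL with ⟨r, hr⟩
    omega
  rcases Nat.lt_or_gt_of_ne hne with h | h
  · -- f < b
    have hnb : n * (f + 1) ≤ n * b := Nat.mul_le_mul_left _ (by omega)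
    have hnb2 : n * b ≤ n * (2 * n) := Nat.mul_le_mul_left _ (by omega)
    have hf1 : n * (f + 1) = n * f + n := by ring
    have hlt : N < t := by omega
    exact absurd (h0.2 N t hlt (by omega)) (not_lt.2 h2)
  · have hnb : n * (b + 1) ≤ n * f := Nat.mul_le_mul_left _ (by omega)
    have hb1 : n * (b + 1) = n * b + n := by ring
    have hlt : s < N := by omega
    exact absurd (h0.2 s N hlt (by omega)) (not_lt.2 h1)

theorem arc_countable (hc : ∀ a : Ω, (Set.Iio a).Countable) {d : Ω} {n R : ℕ} (hR : n + 1 ≤ R)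
    (y : List Ω) : {x | Arc d n R x y}.Countable := by
  have h1 : {x : List Ω | ∀ a ∈ x, a ∈ Set.Iic (nth d y (R - 1))}.Countable := by
    have : (Set.Iic (nth d y (R - 1))).Countable := by
      have := (hc (nth d y (R - 1))).insert (nth d y (R - 1))
      rwa [Set.Iio_insert] at this
    have : Countable (Set.Iic (nth d y (R - 1))) := this.to_subtype
    refine (Set.countable_range (List.map (Subtype.val : Set.Iic (nth d y (R - 1)) → Ω))).mono ?_
    intro x hx
    exact ⟨x.attachWith _ hx, by simp⟩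
  refine h1.mono ?_
  rintro x ⟨hx, hy, hxi, hyi, a1, -⟩ a ha
  obtain ⟨i, hi, rfl⟩ := List.mem_iff_getElem.1 ha
  have e0 : x[i] = nth d x i := by
    unfold nth
    simp [List.getD_eq_getElem?_getD, hi]
  rw [e0]
  have e1 : nth d x i ≤ nth d x (R - 1) := hxi.le (by omega) (by omega)
  have e2 := a1 (R - (n + 1)) (by omega)
  have e3 : R - (n + 1) + n = R - 1 := by omega
  rw [e3] at e2
  have e4 : nth d y (R - (n + 1)) ≤ nth d y (R - 1) := hyi.le (by omega) (by omega)
  exact (e1.trans e2.le).trans e4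

end Tuples

/-! ### The first uncountable ordinal as a type -/

/-- a well-ordered type of cardinality `ℵ₁` with countable initial segments -/
abbrev W : Type := (ℵ₁ : Cardinal.{0}).ord.ToType

theorem mk_W : #W = ℵ₁ := by simp [W]

theorem W_countable (a : W) : (Set.Iio a).Countable := by
  rw [← Cardinal.le_aleph0_iff_set_countable, ← Cardinal.lt_aleph_one_iff]
  have := Cardinal.mk_Iio_lt a (by simp [W])
  rwa [mk_W] at this

theorem W_unbounded (f : ℕ → W) : ∃ α, ∀ k, f k < α := by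
  by_contra hcon
  push Not at hcon
  have huniv : (Set.univ : Set W) ⊆ ⋃ k, Set.Iic (f k) := by
    intro a _
    obtain ⟨k, hk⟩ := hcon a
    exact mem_iUnion.2 ⟨k, hk⟩
  have hcount : (Set.univ : Set W).Countable := by
    refine (Set.countable_iUnion (fun k => ?_)).mono huniv
    have := (W_countable (f k)).insert (f k)
    rwa [Set.Iio_insert] at this
  have h1 : #W ≤ ℵ₀ := by
    rw [Cardinal.mk_le_aleph0_iff]
    exact Set.countable_univ_iff.1 hcount
  rw [mk_W] at h1
  exact absurd h1 (not_le.2 Cardinal.aleph0_lt_aleph_one)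

/-! ### The main theorem -/

/-- In ZFC: for every `k` there is a graph of chromatic number exactly `ℵ₁` which contains neither
`K(ℵ₀,ℵ₀)` nor any odd cycle `C_{2r+1}` with `1 ≤ r ≤ k`. -/
theorem result : ∀ k : ℕ, ∃ (V : Type) (G : SimpleGraph V),
    cardChromatic G = ℵ₁ ∧
    ¬ (completeBipartiteGraph ℕ ℕ).IsContained G ∧
    ∀ r : ℕ, 1 ≤ r → r ≤ k → ¬ (SimpleGraph.cycleGraph (2 * r + 1)).IsContained G := by
  intro k
  have hWne : Nonempty W := by
    rw [← Cardinal.mk_ne_zero_iff, mk_W]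
    exact (Cardinal.aleph_pos 1).ne'
  obtain ⟨d⟩ := hWne
  set n : ℕ := k + 1 with hn
  set N : ℕ := (n + 1) * (2 * n + 1) with hN
  have hNn : 2 * n + 1 ≤ N := by
    rw [hN]
    exact Nat.le_mul_of_pos_left _ (by omega)
  set R : ℕ := 2 * N + 1 with hR
  let X : Type := List W
  let D : X → X → Prop := Arc d n R
  have hXcard : #X = ℵ₁ := by
    have : Infinite W := by
      rw [Cardinal.infinite_iff, mk_W]
      exact Cardinal.aleph0_lt_aleph_one.le
    rw [Cardinal.mk_list_eq_mk, mk_W]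
  have hρ : ∃ ρ : X → ℕ → Bool, Function.Injective ρ := by
    have h1 : #X ≤ #(ℕ → Bool) := by
      rw [hXcard]
      refine Cardinal.aleph_one_le_continuum.trans (le_of_eq ?_)
      simp
    obtain ⟨f⟩ := (Cardinal.le_def _ _).1 h1
    exact ⟨f, f.injective⟩
  obtain ⟨ρ, hρ⟩ := hρ
  have he : ∃ e : X → X → ℕ, ∀ y x x', D x y → D x' y → e y x = e y x' → x = x' := by
    have h1 : ∀ y : X, ∃ f : X → ℕ, Set.InjOn f {x | D x y} := fun y =>
      Set.countable_iff_exists_injOn.1 (arc_countable W_countable (by omega) y)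
    choose e he using h1
    exact ⟨e, fun y x x' h h' hxx => he y h h' hxx⟩
  obtain ⟨e, he⟩ := he
  have hD : ∀ x, ¬ D x x := fun x => arc_irrefl (by omega) x
  have h1 : ∀ y n x, Slot D ρ e y n x → D x y := fun y n x h => h.1
  have h2 := fun y n => slot_fin (ρ := ρ) he y n
  have h3 := fun y y' (h : y ≠ y') => slot_ad he hρ y y' h
  have h4 : ∀ x y, D x y → ∀ k, ∃ n, sched n = k ∧ Slot D ρ e y n x :=
    fun x y h k => slot_catch x y h k
  have h5 : ∀ c : X → ℕ, ∃ x y, D x y ∧ c x = c y := fun c =>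
    exists_arc W_unbounded d n R (by omega) c
  have h6 : ∀ x y z w, D x y → D y z → D z w → ¬ D x w := fun x y z w a b c =>
    arc_no_four (by omega) (by omega) x y z w a b c
  let x₀ : X := []
  refine ⟨Node X, blow (Slot D ρ e) x₀ h1 hD, ?_, blow_no_Kww x₀ h1 hD h2 h3 h6, ?_⟩
  · -- the chromatic number
    apply le_antisymm
    · refine csInf_le' ⟨X, hXcard, ⟨SimpleGraph.Coloring.mk (tp x₀) ?_⟩⟩
      intro v w hvw heq
      rcases hvw with h | h
      · have := h.tp_rel h1 x₀
        rw [heq] at this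
        exact hD _ this
      · have := h.tp_rel h1 x₀
        rw [heq] at this
        exact hD _ this
    · refine le_csInf ⟨#X, X, rfl, ⟨SimpleGraph.Coloring.mk (tp x₀) ?_⟩⟩ ?_
      · intro v w hvw heq
        rcases hvw with h | h
        · have := h.tp_rel h1 x₀
          rw [heq] at this
          exact hD _ this
        · have := h.tp_rel h1 x₀
          rw [heq] at this
          exact hD _ this
      · rintro κ ⟨C, rfl, ⟨col⟩⟩
        by_contra hlt
        push Not at hlt
        rw [Cardinal.lt_aleph_one_iff, Cardinal.mk_le_aleph0_iff] at hlt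
        obtain ⟨f, hf⟩ := exists_injective_nat C
        obtain ⟨v, w, hvw, hc⟩ := no_coloring (N := Slot D ρ e) sched h4 h5 (fun v => f (col v))
        exact col.valid (Or.inl hvw) (hf hc)
  · -- odd cycles
    rintro r hr1 hrk ⟨f⟩
    have hadj : ∀ i j : Fin (2 * r + 1), (SimpleGraph.cycleGraph (2 * r + 1)).Adj i j →
        D (tp x₀ (f i)) (tp x₀ (f j)) ∨ D (tp x₀ (f j)) (tp x₀ (f i)) := by
      intro i j hij
      rcases f.toHom.map_adj hij with h | h
      · exact Or.inr (h.tp_rel h1 x₀)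
      · exact Or.inl (h.tp_rel h1 x₀)
    refine arc_no_odd_closed (d := d) (n := n) (N := N) hN
      (fun j => tp x₀ (f (Fin.ofNat (2 * r + 1) j))) (2 * r + 1) ⟨r, rfl⟩ (by omega) ?_ ?_
    · intro j hj
      apply hadj
      rw [SimpleGraph.cycleGraph_adj']
      right
      rw [Fin.sub_def]
      simp only [Fin.ofNat]
      rw [Nat.mod_eq_of_lt hj]
      by_cases hj1 : j + 1 < 2 * r + 1
      · rw [Nat.mod_eq_of_lt hj1]
        have : 2 * r + 1 - j + (j + 1) = 1 + (2 * r + 1) := by omega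
        rw [this, Nat.add_mod_right, Nat.mod_eq_of_lt (by omega)]
      · have hj2 : j + 1 = 2 * r + 1 := by omega
        rw [hj2, Nat.mod_self]
        have : 2 * r + 1 - j + 0 = 1 := by omega
        rw [this, Nat.mod_eq_of_lt (by omega)]
    · have : Fin.ofNat (2 * r + 1) (2 * r + 1) = Fin.ofNat (2 * r + 1) 0 := by
        apply Fin.ext
        simp [Fin.ofNat]
      simp only [this]

end Pool.Agent.Results.MP_037fd6_co.OddGirthZFC
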